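import Pool.Agent.W742.OR.Sets

/-!
# Over-recurrent bounded functions in mixing systems
-/

set_option autoImplicit false

open Filter Topology Finset MeasureTheory Set
open scoped InnerProductSpace

namespace Pool.Agent.W742.OR

variable {X : Type*} [MeasurableSpace X] {μ : Measure X} [IsProbabilityMeasure μ] {T : X → X}

/-- bounded mean zero functions with almost nonnegative correlations -/
structure Ap (μ : Measure X) (T : X → X) (F : X → ℝ) (b : ℝ) : Prop where
  meas : Measurable F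
  bdd : ∃ C : ℝ, ∀ x, |F x| ≤ C
  mean : ∫ x, F x ∂μ = 0
  cor : ∀ n : ℕ, 1 ≤ n → -b ≤ ∫ x, F x * F (T^[n] x) ∂μ

theorem bdd_memLp {F : X → ℝ} (hF : Measurable F) (hb : ∃ C : ℝ, ∀ x, |F x| ≤ C) (p : ENNReal) :
    MemLp F p μ := by
  obtain ⟨C, hC⟩ := hb
  exact MemLp.of_bound hF.aestronglyMeasurable C (Eventually.of_forall fun x => hC x)

omit [IsProbabilityMeasure μ] in
theorem int4 {f1 f2 f3 f4 : X → ℝ} (h1 : Integrable f1 μ) (h2 : Integrable f2 μ)
    (h3 : Integrable f3 μ) (h4 : Integrable f4 μ) :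
    ∫ x, (f1 x + f2 x + f3 x + f4 x) ∂μ =
      ∫ x, f1 x ∂μ + ∫ x, f2 x ∂μ + ∫ x, f3 x ∂μ + ∫ x, f4 x ∂μ := by
  have a1 := integral_add (f := fun x => f1 x + f2 x + f3 x) (g := f4) ((h1.add h2).add h3) h4
  have a2 := integral_add (f := fun x => f1 x + f2 x) (g := f3) (h1.add h2) h3
  have a3 := integral_add (f := f1) (g := f2) h1 h2
  rw [a1, a2, a3]

theorem step (hT : MeasurePreserving T μ μ)
    (hmix : ∀ A B : Set X, MeasurableSet A → MeasurableSet B →
      Tendsto (fun n : ℕ => μ (A ∩ T^[n] ⁻¹' B)) atTop (𝓝 (μ A * μ B)))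
    {A₀ : Set X} (hA₀ : MeasurableSet A₀) (h0 : 0 < μ.real A₀) (h1 : μ.real A₀ < 1)
    {F : X → ℝ} {b : ℝ} (hb : 0 < b) (hF : Ap μ T F b) :
    ∃ F' : X → ℝ, Ap μ T F' (b / 2) ∧ (∀ x, |F' x - F x| ≤ Real.sqrt (32 * b)) ∧
      ∫ x, F x * F x ∂μ ≤ ∫ x, F' x * F' x ∂μ := by
  set l := Real.sqrt (32 * b) with hl
  have hl0 : 0 < l := Real.sqrt_pos.2 (by positivity)
  have hl2 : l * l = 32 * b := Real.mul_self_sqrt (by positivity)
  have hFm : MemLp F 2 μ := bdd_memLp hF.meas hF.bdd 2
  set η := b / (32 * l) with hη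
  have hη0 : 0 < η := by positivity
  have hlη : l * η = b / 32 := by
    rw [hη]; field_simp
  -- the weak limit
  have hw : ∀ g, Tendsto (fun n : ℕ => ⟪hFm.toLp F, (KU hT ^ n) g⟫_ℝ) atTop (𝓝 0) := by
    intro g
    have h := mixL2 hT hmix (hFm.toLp F) g
    have e : ∫ x, (hFm.toLp F) x ∂μ = 0 := by
      rw [integral_congr_ae hFm.coeFn_toLp]
      exact hF.mean
    rwa [e, zero_mul] at h
  obtain ⟨M, κ, hκ, hcross⟩ := cross (KU hT) (hFm.toLp F) hw η hη0
  have hN : ∃ N : ℕ, ∀ n ≥ N, |∫ x, F x * F (T^[n] x) ∂μ| ≤ b / 8 := by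
    have h := hw (hFm.toLp F)
    simp only [inner_pow_toLp] at h
    have h' := h.abs
    rw [abs_zero] at h'
    exact eventually_atTop.1 (h'.eventually_le_const (by positivity))
  obtain ⟨N, hN⟩ := hN
  set δ := min (κ ^ 2 / 2) (1 / 512) with hδ
  have hδ0 : 0 < δ := lt_min (by positivity) (by norm_num)
  obtain ⟨A, hA, hA1, hA2, hA3⟩ := near_inv hT hmix hA₀ h0 h1 (1 / 32) δ (by norm_num)
    (by norm_num) hδ0 (max N M)
  set m := μ.real A with hm
  -- the function v
  set v : X → ℝ := fun x => A.indicator (fun _ => (1:ℝ)) x - m with hv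
  have hind : ∀ x, A.indicator (fun _ => (1:ℝ)) x = 0 ∨ A.indicator (fun _ => (1:ℝ)) x = 1 := by
    intro x
    by_cases h : x ∈ A
    · right; simp [h]
    · left; simp [h]
  have hm0 : 0 ≤ m := measureReal_nonneg
  have hv1 : ∀ x, |v x| ≤ 1 := by
    intro x
    rw [abs_le]
    simp only [hv]
    rcases hind x with h | h <;> rw [h] <;> constructor <;> linarith
  have hvm : Measurable v := (measurable_const.indicator hA).sub_const m
  have hvL : MemLp v 2 μ := bdd_memLp hvm ⟨1, hv1⟩ 2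
  have hii : ∀ n : ℕ, Integrable (fun x => A.indicator (fun _ => (1:ℝ)) (T^[n] x)) μ := by
    intro n
    refine Integrable.of_bound
      (((measurable_const.indicator hA).comp (hT.iterate n).measurable).aestronglyMeasurable) 1
      (Eventually.of_forall fun x => ?_)
    rcases hind (T^[n] x) with h | h <;> rw [h] <;> simp
  have hi1 : ∀ n : ℕ, ∫ x, A.indicator (fun _ => (1:ℝ)) (T^[n] x) ∂μ = m := by
    intro n
    have e : (fun x => A.indicator (fun _ => (1:ℝ)) (T^[n] x)) =
        (T^[n] ⁻¹' A).indicator (fun _ => (1:ℝ)) := by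
      ext x
      by_cases h : T^[n] x ∈ A <;> simp [h]
    rw [e, integral_indicator_const _ ((hT.iterate n).measurable hA),
      (hT.iterate n).measureReal_preimage hA.nullMeasurableSet]
    simp [hm]
  have hi2 : ∀ n : ℕ, ∫ x, A.indicator (fun _ => (1:ℝ)) x *
      A.indicator (fun _ => (1:ℝ)) (T^[n] x) ∂μ = μ.real (A ∩ T^[n] ⁻¹' A) := by
    intro n
    have e : (fun x => A.indicator (fun _ => (1:ℝ)) x * A.indicator (fun _ => (1:ℝ)) (T^[n] x)) =
        (A ∩ T^[n] ⁻¹' A).indicator (fun _ => (1:ℝ)) := by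
      ext x
      by_cases h : T^[n] x ∈ A <;> by_cases h' : x ∈ A <;> simp [h, h']
    rw [e, integral_indicator_const _ (hA.inter ((hT.iterate n).measurable hA))]
    simp
  have hvv : ∀ n : ℕ, ∫ x, v x * v (T^[n] x) ∂μ = μ.real (A ∩ T^[n] ⁻¹' A) - m ^ 2 := by
    intro n
    have e : (fun x => v x * v (T^[n] x)) = fun x =>
        A.indicator (fun _ => (1:ℝ)) x * A.indicator (fun _ => (1:ℝ)) (T^[n] x) +
          (-m) * A.indicator (fun _ => (1:ℝ)) x + (-m) * A.indicator (fun _ => (1:ℝ)) (T^[n] x) +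
          m ^ 2 := by
      ext x
      simp only [hv]
      ring
    have i1 : Integrable (fun x => A.indicator (fun _ => (1:ℝ)) x *
        A.indicator (fun _ => (1:ℝ)) (T^[n] x)) μ := by
      refine Integrable.of_bound ((measurable_const.indicator hA).mul
        ((measurable_const.indicator hA).comp
          (hT.iterate n).measurable)).aestronglyMeasurable 1 (Eventually.of_forall fun x => ?_)
      rcases hind (T^[n] x) with h | h <;> rcases hind x with h' | h' <;> rw [h, h'] <;> simp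
    have i2 : Integrable (fun x => (-m) * A.indicator (fun _ => (1:ℝ)) x) μ :=
      (hii 0).const_mul (-m)
    have i3 := (hii n).const_mul (-m)
    rw [e, int4 i1 i2 i3 (integrable_const _), integral_const_mul, integral_const_mul, hi2, hi1]
    have := hi1 0
    simp only [Function.iterate_zero, id_eq] at this
    rw [this]
    simp
    ring
  have hvv0 : ∫ x, v x * v x ∂μ = m - m ^ 2 := by
    have := hvv 0
    simpa using this
  -- norms
  have hn0 : ‖hvL.toLp v‖ ^ 2 = m - m ^ 2 := by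
    rw [← real_inner_self_eq_norm_sq, inner_toLp, hvv0]
  have hV1 : ‖hvL.toLp v‖ ≤ 1 := by
    have : ‖hvL.toLp v‖ ^ 2 ≤ 1 ^ 2 := by rw [hn0]; nlinarith
    exact (sq_le_sq₀ (norm_nonneg _) zero_le_one).1 this
  have hVi : ∀ k ≤ M, ‖hvL.toLp v - (KU hT ^ k) (hvL.toLp v)‖ ≤ κ := by
    intro k hk
    have h2 : ‖hvL.toLp v - (KU hT ^ k) (hvL.toLp v)‖ ^ 2 ≤ κ ^ 2 := by
      rw [norm_sub_sq_real, norm_iso_pow, hn0, inner_pow_toLp, hvv]
      have := hA3 k (hk.trans (le_max_right _ _))
      have h3 : δ ≤ κ ^ 2 / 2 := min_le_left _ _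
      linarith
    exact (sq_le_sq₀ (norm_nonneg _) hκ.le).1 h2
  have hcr := hcross (hvL.toLp v) hV1 hVi
  simp only [inner_pow_toLp] at hcr
  -- integrability
  obtain ⟨C, hC⟩ := hF.bdd
  have hC0 : 0 ≤ C := by
    have : Nonempty X := by
      by_contra h
      rw [not_nonempty_iff] at h
      have : μ.real A₀ = 0 := by
        rw [Set.eq_empty_of_isEmpty A₀]; simp
      linarith
    obtain ⟨x⟩ := this
    exact (abs_nonneg _).trans (hC x)
  have hprod : ∀ (f g : X → ℝ) (Cf Cg : ℝ), Measurable f → Measurable g → (∀ x, |f x| ≤ Cf) →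
      (∀ x, |g x| ≤ Cg) → ∀ n : ℕ, Integrable (fun x => f x * g (T^[n] x)) μ := by
    intro f g Cf Cg hf hg hfb hgb n
    refine Integrable.of_bound (hf.mul
      (hg.comp (hT.iterate n).measurable)).aestronglyMeasurable (Cf * Cg)
      (Eventually.of_forall fun x => ?_)
    rw [Real.norm_eq_abs, abs_mul]
    exact mul_le_mul (hfb x) (hgb _) (abs_nonneg _) ((abs_nonneg _).trans (hfb x))
  have hexp : ∀ n : ℕ, ∫ x, (F x + l * v x) * (F (T^[n] x) + l * v (T^[n] x)) ∂μ =
      ∫ x, F x * F (T^[n] x) ∂μ + l * (∫ x, F x * v (T^[n] x) ∂μ + ∫ x, v x * F (T^[n] x) ∂μ) +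
        l * l * ∫ x, v x * v (T^[n] x) ∂μ := by
    intro n
    have j1 := hprod F F C C hF.meas hF.meas hC hC n
    have j2 := (hprod F v C 1 hF.meas hvm hC hv1 n).const_mul l
    have j3 := (hprod v F 1 C hvm hF.meas hv1 hC n).const_mul l
    have j4 := (hprod v v 1 1 hvm hvm hv1 hv1 n).const_mul (l * l)
    have e : (fun x => (F x + l * v x) * (F (T^[n] x) + l * v (T^[n] x))) = fun x =>
        ((F x * F (T^[n] x) + l * (F x * v (T^[n] x))) + l * (v x * F (T^[n] x))) +
          l * l * (v x * v (T^[n] x)) := by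
      ext x; ring
    rw [e, int4 j1 j2 j3 j4, integral_const_mul, integral_const_mul, integral_const_mul]
    ring
  have hcr2 : ∀ n : ℕ, -(b / 16) ≤
      l * (∫ x, F x * v (T^[n] x) ∂μ + ∫ x, v x * F (T^[n] x) ∂μ) := by
    intro n
    obtain ⟨c1, c2⟩ := hcr n
    have c1' := (abs_le.1 c1).1
    have c2' := (abs_le.1 c2).1
    nlinarith
  have hm1 : 15 / 512 ≤ m - m ^ 2 := by nlinarith
  have hm2 : m ^ 2 ≤ 1 / 256 := by nlinarith
  refine ⟨fun x => F x + l * v x, ⟨hF.meas.add (hvm.const_mul l), ⟨C + l, ?_⟩, ?_, ?_⟩, ?_, ?_⟩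
  · intro x
    refine (abs_add_le _ _).trans ?_
    rw [abs_mul, abs_of_pos hl0]
    have := hC x
    have := hv1 x
    nlinarith
  · have hvi : Integrable v μ := by
      have := hprod v (fun _ => 1) 1 1 hvm measurable_const hv1 (by simp) 0
      simpa using this
    have hFi : Integrable F μ := by
      have := hprod F (fun _ => 1) C 1 hF.meas measurable_const hC (by simp) 0
      simpa using this
    rw [integral_add hFi (hvi.const_mul l), integral_const_mul, hF.mean]
    have : ∫ x, v x ∂μ = 0 := by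
      simp only [hv]
      have h7 : Integrable (A.indicator (fun _ => (1:ℝ))) μ := hii 0
      rw [integral_sub h7 (integrable_const _)]
      have := hi1 0
      simp only [Function.iterate_zero, id_eq] at this
      rw [this]
      simp
    rw [this]; ring
  · intro n hn
    rw [hexp n, hvv n, hl2]
    have hc := hcr2 n
    by_cases hnN : n ≤ max N M
    · have h3 := hA3 n hnN
      have h4 := hF.cor n hn
      have h5 : δ ≤ 1 / 512 := min_le_right _ _
      nlinarith
    · have h3 : N ≤ n := by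
        have := le_max_left N M
        omega
      have h4 := (abs_le.1 (hN n h3)).1
      have h5 : 0 ≤ μ.real (A ∩ T^[n] ⁻¹' A) := measureReal_nonneg
      nlinarith
  · intro x
    rw [add_sub_cancel_left, abs_mul, abs_of_pos hl0]
    have := hv1 x
    nlinarith
  · have h := hexp 0
    simp only [Function.iterate_zero, id_eq] at h
    rw [h, hvv0, hl2]
    have hc := hcr2 0
    simp only [Function.iterate_zero, id_eq] at hc
    nlinarith

/-- **Over-recurrent bounded functions exist in every nontrivial mixing system.** -/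
theorem over_recurrent (hT : MeasurePreserving T μ μ)
    (hmix : ∀ A B : Set X, MeasurableSet A → MeasurableSet B →
      Tendsto (fun n : ℕ => μ (A ∩ T^[n] ⁻¹' B)) atTop (𝓝 (μ A * μ B)))
    {A₀ : Set X} (hA₀ : MeasurableSet A₀) (h0 : 0 < μ.real A₀) (h1 : μ.real A₀ < 1) :
    ∃ f : X → ℝ, Measurable f ∧ (∃ C, ∀ x, |f x| ≤ C) ∧ ∫ x, f x ∂μ = 0 ∧
      0 < ∫ x, f x * f x ∂μ ∧ ∀ n : ℕ, 1 ≤ n → 0 ≤ ∫ x, f x * f (T^[n] x) ∂μ := by
  classical
  have hstep : ∀ (k : ℕ) (F : X → ℝ), Ap μ T F ((1 / 2) ^ k) → ∃ F' : X → ℝ,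
      Ap μ T F' ((1 / 2) ^ (k + 1)) ∧ (∀ x, |F' x - F x| ≤ Real.sqrt (32 * (1 / 2) ^ k)) ∧
      ∫ x, F x * F x ∂μ ≤ ∫ x, F' x * F' x ∂μ := by
    intro k F hF
    obtain ⟨F', h1, h2, h3⟩ := step hT hmix hA₀ h0 h1 (by positivity) hF
    refine ⟨F', ?_, h2, h3⟩
    rw [pow_succ]
    convert h1 using 1
    ring
  choose g hg using hstep
  -- the start
  set m := μ.real A₀ with hm
  set F₀ : X → ℝ := fun x => A₀.indicator (fun _ => (1:ℝ)) x - m with hF₀
  have hind : ∀ x, A₀.indicator (fun _ => (1:ℝ)) x = 0 ∨ A₀.indicator (fun _ => (1:ℝ)) x = 1 := by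
    intro x
    by_cases h : x ∈ A₀
    · right; simp [h]
    · left; simp [h]
  have hF1 : ∀ x, |F₀ x| ≤ 1 := by
    intro x
    rw [abs_le]
    simp only [hF₀]
    rcases hind x with h | h <;> rw [h] <;> constructor <;> linarith
  have hFm : Measurable F₀ := (measurable_const.indicator hA₀).sub_const m
  have hii : Integrable (A₀.indicator (fun _ => (1:ℝ))) μ :=
    (integrable_const _).indicator hA₀
  have hi1 : ∫ x, A₀.indicator (fun _ => (1:ℝ)) x ∂μ = m := by
    rw [integral_indicator_const _ hA₀]; simp [hm]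
  have hmean : ∫ x, F₀ x ∂μ = 0 := by
    simp only [hF₀]
    rw [integral_sub hii (integrable_const _), hi1]
    simp
  have hsq : ∫ x, F₀ x * F₀ x ∂μ = m - m ^ 2 := by
    have e : (fun x => F₀ x * F₀ x) = fun x =>
        (1 - 2 * m) * A₀.indicator (fun _ => (1:ℝ)) x + m ^ 2 := by
      ext x
      simp only [hF₀]
      rcases hind x with h | h <;> rw [h] <;> ring
    rw [e, integral_add (hii.const_mul _) (integrable_const _), integral_const_mul, hi1]
    simp
    ring
  have hAp0 : Ap μ T F₀ ((1 / 2) ^ 0) := by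
    refine ⟨hFm, ⟨1, hF1⟩, hmean, fun n _ => ?_⟩
    have hb : |∫ x, F₀ x * F₀ (T^[n] x) ∂μ| ≤ 1 := by
      have := norm_integral_le_of_norm_le_const (μ := μ) (f := fun x => F₀ x * F₀ (T^[n] x))
        (C := 1) (Eventually.of_forall fun x => ?_)
      · simpa using this
      · rw [Real.norm_eq_abs, abs_mul]
        have h1 := hF1 x
        have h2 := hF1 (T^[n] x)
        nlinarith [abs_nonneg (F₀ x), abs_nonneg (F₀ (T^[n] x))]
    rw [pow_zero]
    exact (abs_le.1 hb).1
  let s : (k : ℕ) → {F : X → ℝ // Ap μ T F ((1 / 2) ^ k)} := fun k =>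
    Nat.rec ⟨F₀, hAp0⟩ (fun k F => ⟨g k F.1 F.2, (hg k F.1 F.2).1⟩) k
  set G : ℕ → X → ℝ := fun k => (s k).1 with hG
  have hGA : ∀ k, Ap μ T (G k) ((1 / 2) ^ k) := fun k => (s k).2
  have hG0 : G 0 = F₀ := rfl
  have hGs : ∀ k, (∀ x, |G (k + 1) x - G k x| ≤ Real.sqrt (32 * (1 / 2) ^ k)) ∧
      ∫ x, G k x * G k x ∂μ ≤ ∫ x, G (k + 1) x * G (k + 1) x ∂μ := by
    intro k
    exact (hg k (s k).1 (s k).2).2
  -- geometric bound
  set r := Real.sqrt (1 / 2) with hr
  have hr1 : r < 1 := by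
    rw [hr, Real.sqrt_lt' one_pos]; norm_num
  have hr0 : 0 ≤ r := Real.sqrt_nonneg _
  have hgeo : ∀ k, Real.sqrt (32 * (1 / 2) ^ k) = Real.sqrt 32 * r ^ k := by
    intro k
    rw [Real.sqrt_mul (by norm_num), hr]
    congr 1
    induction k with
    | zero => simp
    | succ k ih => rw [pow_succ, Real.sqrt_mul (by positivity), ih, pow_succ]
  have hd : ∀ x k, dist (G k x) (G (k + 1) x) ≤ Real.sqrt 32 * r ^ k := by
    intro x k
    rw [dist_comm, Real.dist_eq, ← hgeo]
    exact (hGs k).1 x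
  have hlim : ∀ x, ∃ y, Tendsto (fun k => G k x) atTop (𝓝 y) := fun x =>
    cauchySeq_tendsto_of_complete (cauchySeq_of_le_geometric r _ hr1 (hd x))
  choose f hf using hlim
  have hfd : ∀ x k, |G k x - f x| ≤ Real.sqrt 32 * r ^ k / (1 - r) := by
    intro x k
    have := dist_le_of_le_geometric_of_tendsto r _ hr1 (hd x) (hf x) k
    rwa [Real.dist_eq] at this
  set D := Real.sqrt 32 / (1 - r) with hD
  have h1r : 0 < 1 - r := by linarith
  have hD0 : 0 ≤ D := by positivity
  have hfd' : ∀ x k, |G k x - f x| ≤ D := by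
    intro x k
    refine (hfd x k).trans ?_
    rw [hD]
    apply div_le_div_of_nonneg_right _ h1r.le
    have : r ^ k ≤ 1 := pow_le_one₀ hr0 hr1.le
    have h32 : 0 ≤ Real.sqrt 32 := Real.sqrt_nonneg _
    nlinarith
  have hfb : ∀ x, |f x| ≤ 1 + D := by
    intro x
    have h2 := hfd' x 0
    have h3 := hF1 x
    have h4 : |f x| ≤ |G 0 x| + |G 0 x - f x| := by
      have := abs_sub_abs_le_abs_sub (f x) (G 0 x)
      rw [abs_sub_comm (f x) (G 0 x)] at this
      linarith
    rw [hG0] at h4 h2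
    linarith
  have hGb : ∀ x k, |G k x| ≤ 1 + 2 * D := by
    intro x k
    have h2 := hfd' x k
    have h3 := hfb x
    have h4 := abs_sub_abs_le_abs_sub (G k x) (f x)
    linarith
  have hfm : Measurable f :=
    measurable_of_tendsto_metrizable (fun k => (hGA k).meas) (tendsto_pi_nhds.2 hf)
  have hint : Tendsto (fun k => ∫ x, G k x ∂μ) atTop (𝓝 (∫ x, f x ∂μ)) := by
    refine tendsto_integral_of_dominated_convergence (fun _ => 1 + 2 * D)
      (fun k => (hGA k).meas.aestronglyMeasurable) (integrable_const _)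
      (fun k => Eventually.of_forall fun x => hGb x k) (Eventually.of_forall hf)
  have hcor : ∀ n : ℕ, Tendsto (fun k => ∫ x, G k x * G k (T^[n] x) ∂μ) atTop
      (𝓝 (∫ x, f x * f (T^[n] x) ∂μ)) := by
    intro n
    refine tendsto_integral_of_dominated_convergence (fun _ => (1 + 2 * D) * (1 + 2 * D))
      (fun k => ((hGA k).meas.mul
        ((hGA k).meas.comp (hT.iterate n).measurable)).aestronglyMeasurable) (integrable_const _)
      (fun k => Eventually.of_forall fun x => ?_) (Eventually.of_forall fun x => ?_)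
    · rw [Real.norm_eq_abs, abs_mul]
      exact mul_le_mul (hGb x k) (hGb _ k) (abs_nonneg _) (by positivity)
    · exact (hf x).mul (hf (T^[n] x))
  refine ⟨f, hfm, ⟨_, hfb⟩, ?_, ?_, ?_⟩
  · refine tendsto_nhds_unique hint ?_
    simp only [fun k => (hGA k).mean]
    exact tendsto_const_nhds
  · have hmon : ∀ k, m - m ^ 2 ≤ ∫ x, G k x * G k x ∂μ := by
      intro k
      induction k with
      | zero => rw [hG0, hsq]
      | succ k ih => exact ih.trans (hGs k).2
    have h3 := ge_of_tendsto' (hcor 0) (b := m - m ^ 2) (fun k => hmon k)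
    simp only [Function.iterate_zero, id_eq] at h3
    have : 0 < m - m ^ 2 := by nlinarith
    linarith
  · intro n hn
    have h3 : Tendsto (fun k : ℕ => -((1:ℝ) / 2) ^ k) atTop (𝓝 0) := by
      have := (tendsto_pow_atTop_nhds_zero_of_lt_one (r := (1:ℝ)/2) (by norm_num)
        (by norm_num)).neg
      simpa using this
    exact le_of_tendsto_of_tendsto' h3 (hcor n) fun k => (hGA k).cor n hn

end Pool.Agent.W742.OR
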