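import Mathlib

/-!
# Cross terms with near-invariant vectors (Hilbert space part)
-/

set_option autoImplicit false

open Filter Topology Finset
open scoped InnerProductSpace

namespace Pool.Agent.W742.OR

variable {H : Type*} [NormedAddCommGroup H] [InnerProductSpace ℝ H] [CompleteSpace H]

/-- vectors orthogonal to the fixed space have small averages -/
theorem avg_small (S : H →L[ℝ] H) (hS : ‖S‖ ≤ 1) (F : H)
    (hF : ∀ g, S g = g → ⟪F, g⟫_ℝ = 0) (η : ℝ) (hη : 0 < η) :
    ∀ᶠ M : ℕ in atTop, ‖∑ j ∈ range M, (S ^ j) F‖ ≤ η * M := by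
  have h1 := S.tendsto_birkhoffAverage_orthogonalProjection hS F
  have h2 : (S.eqLocus (1 : H →L[ℝ] H)).orthogonalProjectionOnto F = 0 := by
    rw [Submodule.orthogonalProjectionOnto_eq_zero_iff, Submodule.mem_orthogonal]
    intro g hg
    rw [real_inner_comm]
    exact hF g (by simpa using hg)
  rw [h2] at h1
  have h3 := (tendsto_zero_iff_norm_tendsto_zero.1 (by simpa using h1))
  filter_upwards [h3.eventually_le_const hη, eventually_ge_atTop 1] with M hM hM1
  have hMpos : (0 : ℝ) < M := by exact_mod_cast hM1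
  have e : birkhoffAverage ℝ S _root_.id M F = (M : ℝ)⁻¹ • ∑ j ∈ range M, (S ^ j) F := by
    simp [birkhoffAverage, birkhoffSum]
  rw [e, norm_smul, norm_inv, Real.norm_natCast, inv_mul_le_iff₀ hMpos] at hM
  linarith [mul_comm (M : ℝ) η]

theorem norm_iso_pow (U : H →ₗᵢ[ℝ] H) (n : ℕ) (x : H) : ‖(U ^ n) x‖ = ‖x‖ :=
  (U ^ n).norm_map x

theorem inner_iso_pow (U : H →ₗᵢ[ℝ] H) (n : ℕ) (x y : H) :
    ⟪(U ^ n) x, (U ^ n) y⟫_ℝ = ⟪x, y⟫_ℝ :=
  (U ^ n).inner_map_map x y

theorem clm_pow (U : H →ₗᵢ[ℝ] H) (n : ℕ) (x : H) :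
    (U.toContinuousLinearMap ^ n) x = (U ^ n) x := by
  induction n generalizing x with
  | zero => rfl
  | succ n ih => 
    rw [pow_succ, pow_succ]
    show (U.toContinuousLinearMap ^ n) (U x) = (U ^ n) (U x)
    exact ih _

theorem adj_pow (U : H →ₗᵢ[ℝ] H) (n : ℕ) (x y : H) :
    ⟪((U.toContinuousLinearMap.adjoint) ^ n) x, y⟫_ℝ = ⟪x, (U ^ n) y⟫_ℝ := by
  induction n generalizing x y with
  | zero => rfl
  | succ n ih =>
    rw [pow_succ, pow_succ']
    show ⟪((U.toContinuousLinearMap.adjoint) ^ n) (U.toContinuousLinearMap.adjoint x), y⟫_ℝ =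
      ⟪x, U ((U ^ n) y)⟫_ℝ
    rw [ih, ContinuousLinearMap.adjoint_inner_left]
    rfl

/-- **Cross terms.** If `F` is weakly sent to zero, then for nearly invariant `V` in the unit ball
all the correlations of `F` and `V` are small. -/
theorem cross (U : H →ₗᵢ[ℝ] H) (F : H)
    (hmix : ∀ g, Tendsto (fun n : ℕ => ⟪F, (U ^ n) g⟫_ℝ) atTop (𝓝 0)) (η : ℝ) (hη : 0 < η) :
    ∃ (M : ℕ) (κ : ℝ), 0 < κ ∧ ∀ V : H, ‖V‖ ≤ 1 → (∀ m ≤ M, ‖V - (U ^ m) V‖ ≤ κ) →
      ∀ n : ℕ, |⟪V, (U ^ n) F⟫_ℝ| ≤ η ∧ |⟪F, (U ^ n) V⟫_ℝ| ≤ η := by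
  set S := U.toContinuousLinearMap with hSdef
  have hS : ‖S‖ ≤ 1 := U.norm_toContinuousLinearMap_le
  have hSa : ‖S.adjoint‖ ≤ 1 := by
    rw [LinearIsometryEquiv.norm_map]
    exact hS
  have hfix : ∀ g, U g = g → ⟪F, g⟫_ℝ = 0 := by
    intro g hg
    have hp : ∀ n : ℕ, (U ^ n) g = g := by
      intro n
      induction n with
      | zero => rfl
      | succ n ih =>
        rw [pow_succ]
        show (U ^ n) (U g) = g
        rw [hg, ih]
    have h := hmix g
    simp only [hp] at h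
    exact tendsto_nhds_unique tendsto_const_nhds h
  have hfixa : ∀ g, S.adjoint g = g → ⟪F, g⟫_ℝ = 0 := by
    intro g hg
    apply hfix
    have h1 : ⟪U g, g⟫_ℝ = ‖g‖ ^ 2 := by
      have : ⟪g, S.adjoint g⟫_ℝ = ⟪S g, g⟫_ℝ := ContinuousLinearMap.adjoint_inner_right S g g
      rw [hg, real_inner_self_eq_norm_sq] at this
      exact this.symm
    have h2 : ‖U g - g‖ ^ 2 = 0 := by
      rw [norm_sub_sq_real, h1, U.norm_map]; ring
    have h3 : ‖U g - g‖ = 0 := by
      exact pow_eq_zero_iff (two_ne_zero) |>.1 h2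
    exact sub_eq_zero.1 (norm_eq_zero.1 h3)
  have e1 := avg_small S hS F (fun g hg => hfix g hg) (η / 2) (by positivity)
  have e2 := avg_small S.adjoint hSa F hfixa (η / 2) (by positivity)
  obtain ⟨M, ⟨hA, hB⟩, hM1⟩ := ((e1.and e2).and (eventually_ge_atTop 1)).exists
  have hMpos : (0 : ℝ) < M := by exact_mod_cast hM1
  refine ⟨2 * M, η / (2 * (‖F‖ + 1)), by positivity, ?_⟩
  intro V hV hinv n
  set κ := η / (2 * (‖F‖ + 1)) with hκ
  have hκF : κ * ‖F‖ ≤ η / 2 := by
    have h0 : 0 ≤ ‖F‖ := norm_nonneg F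
    have : κ * (‖F‖ + 1) = η / 2 := by
      rw [hκ]; field_simp
    have hκ0 : 0 < κ := by positivity
    nlinarith
  have hpp : ∀ (a b : ℕ) (x : H), (U ^ a) ((U ^ b) x) = (U ^ (a + b)) x := by
    intro a b x
    rw [pow_add]; rfl
  constructor
  · by_cases hn : M ≤ n
    · have key : (M : ℝ) * ⟪V, (U ^ n) F⟫_ℝ =
          (∑ m ∈ range M, ⟪V - (U ^ m) V, (U ^ n) F⟫_ℝ) +
            ⟪V, (U ^ (n + 1 - M)) (∑ j ∈ range M, (S ^ j) F)⟫_ℝ := by
        have h1 : ⟪V, (U ^ (n + 1 - M)) (∑ j ∈ range M, (S ^ j) F)⟫_ℝ =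
            ∑ m ∈ range M, ⟪(U ^ m) V, (U ^ n) F⟫_ℝ := by
          rw [map_sum, inner_sum, ← Finset.sum_range_reflect]
          apply Finset.sum_congr rfl
          intro m hm
          have hm' := Finset.mem_range.1 hm
          rw [clm_pow, hpp]
          have : (U ^ n) F = (U ^ m) ((U ^ (n - m)) F) := by
            rw [hpp]; congr 2; omega
          rw [this, inner_iso_pow]
          congr 3; omega
        rw [h1, ← Finset.sum_add_distrib]
        simp only [← inner_add_left, sub_add_cancel]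
        simp
      have b1 : |∑ m ∈ range M, ⟪V - (U ^ m) V, (U ^ n) F⟫_ℝ| ≤ M * (η / 2) := by
        refine (Finset.abs_sum_le_sum_abs _ _).trans ?_
        have : ∀ m ∈ range M, |⟪V - (U ^ m) V, (U ^ n) F⟫_ℝ| ≤ η / 2 := by
          intro m hm
          have hm' := Finset.mem_range.1 hm
          refine (abs_real_inner_le_norm _ _).trans ?_
          rw [norm_iso_pow]
          refine le_trans ?_ hκF
          exact mul_le_mul_of_nonneg_right (hinv m (by omega)) (norm_nonneg _)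
        refine (Finset.sum_le_sum this).trans ?_
        simp
      have b2 : |⟪V, (U ^ (n + 1 - M)) (∑ j ∈ range M, (S ^ j) F)⟫_ℝ| ≤ M * (η / 2) := by
        refine (abs_real_inner_le_norm _ _).trans ?_
        rw [norm_iso_pow]
        have := mul_le_mul hV hA (norm_nonneg _) zero_le_one
        linarith
      have b3 : (M : ℝ) * |⟪V, (U ^ n) F⟫_ℝ| ≤ M * η := by
        rw [← abs_of_pos hMpos, ← abs_mul, abs_of_pos hMpos, key]
        refine (abs_add_le _ _).trans ?_
        linarith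
      exact le_of_mul_le_mul_left b3 hMpos
    · have key : (M : ℝ) * ⟪V, (U ^ n) F⟫_ℝ =
          (∑ m ∈ range M, ⟪V - (U ^ (n + m)) V, (U ^ n) F⟫_ℝ) +
            ⟪∑ j ∈ range M, (S.adjoint ^ j) F, V⟫_ℝ := by
        have h1 : ⟪∑ j ∈ range M, (S.adjoint ^ j) F, V⟫_ℝ =
            ∑ m ∈ range M, ⟪(U ^ (n + m)) V, (U ^ n) F⟫_ℝ := by
          rw [sum_inner]
          apply Finset.sum_congr rfl
          intro m hm
          rw [adj_pow, ← hpp n m V, inner_iso_pow, real_inner_comm]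
        rw [h1, ← Finset.sum_add_distrib]
        simp only [← inner_add_left, sub_add_cancel]
        simp
      have b1 : |∑ m ∈ range M, ⟪V - (U ^ (n + m)) V, (U ^ n) F⟫_ℝ| ≤ M * (η / 2) := by
        refine (Finset.abs_sum_le_sum_abs _ _).trans ?_
        have : ∀ m ∈ range M, |⟪V - (U ^ (n + m)) V, (U ^ n) F⟫_ℝ| ≤ η / 2 := by
          intro m hm
          have hm' := Finset.mem_range.1 hm
          refine (abs_real_inner_le_norm _ _).trans ?_
          rw [norm_iso_pow]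
          refine le_trans ?_ hκF
          exact mul_le_mul_of_nonneg_right (hinv (n + m) (by omega)) (norm_nonneg _)
        refine (Finset.sum_le_sum this).trans ?_
        simp
      have b2 : |⟪∑ j ∈ range M, (S.adjoint ^ j) F, V⟫_ℝ| ≤ M * (η / 2) := by
        refine (abs_real_inner_le_norm _ _).trans ?_
        have := mul_le_mul hB hV (norm_nonneg _) (by positivity)
        linarith
      have b3 : (M : ℝ) * |⟪V, (U ^ n) F⟫_ℝ| ≤ M * η := by
        rw [← abs_of_pos hMpos, ← abs_mul, abs_of_pos hMpos, key]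
        refine (abs_add_le _ _).trans ?_
        linarith
      exact le_of_mul_le_mul_left b3 hMpos
  · have key : (M : ℝ) * ⟪F, (U ^ n) V⟫_ℝ =
        (∑ m ∈ range M, ⟪F, (U ^ n) (V - (U ^ m) V)⟫_ℝ) +
          ⟪∑ j ∈ range M, (S.adjoint ^ j) F, (U ^ n) V⟫_ℝ := by
      have h1 : ⟪∑ j ∈ range M, (S.adjoint ^ j) F, (U ^ n) V⟫_ℝ =
          ∑ m ∈ range M, ⟪F, (U ^ n) ((U ^ m) V)⟫_ℝ := by
        rw [sum_inner]
        apply Finset.sum_congr rfl
        intro m hm
        rw [adj_pow, hpp, hpp, add_comm]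
      rw [h1, ← Finset.sum_add_distrib]
      simp only [← inner_add_right, ← map_add, sub_add_cancel]
      simp
    have b1 : |∑ m ∈ range M, ⟪F, (U ^ n) (V - (U ^ m) V)⟫_ℝ| ≤ M * (η / 2) := by
      refine (Finset.abs_sum_le_sum_abs _ _).trans ?_
      have : ∀ m ∈ range M, |⟪F, (U ^ n) (V - (U ^ m) V)⟫_ℝ| ≤ η / 2 := by
        intro m hm
        have hm' := Finset.mem_range.1 hm
        refine (abs_real_inner_le_norm _ _).trans ?_
        rw [norm_iso_pow]
        refine le_trans ?_ hκF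
        rw [mul_comm]
        exact mul_le_mul_of_nonneg_right (hinv m (by omega)) (norm_nonneg _)
      refine (Finset.sum_le_sum this).trans ?_
      simp
    have b2 : |⟪∑ j ∈ range M, (S.adjoint ^ j) F, (U ^ n) V⟫_ℝ| ≤ M * (η / 2) := by
      refine (abs_real_inner_le_norm _ _).trans ?_
      rw [norm_iso_pow]
      have := mul_le_mul hB hV (norm_nonneg _) (by positivity)
      linarith
    have b3 : (M : ℝ) * |⟪F, (U ^ n) V⟫_ℝ| ≤ M * η := by
      rw [← abs_of_pos hMpos, ← abs_mul, abs_of_pos hMpos, key]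
      refine (abs_add_le _ _).trans ?_
      linarith
    exact le_of_mul_le_mul_left b3 hMpos

end Pool.Agent.W742.OR
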