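import Pool.Agent.W742.OR.Hil

/-!
# Mixing for functions in `L²`
-/

set_option autoImplicit false

open Filter Topology Finset MeasureTheory Set
open scoped InnerProductSpace

namespace Pool.Agent.W742.OR

variable {X : Type*} [MeasurableSpace X] {μ : Measure X} [IsProbabilityMeasure μ] {T : X → X}

/-- set form of mixing, with real measures -/
theorem mixR (hmix : ∀ A B : Set X, MeasurableSet A → MeasurableSet B →
      Tendsto (fun n : ℕ => μ (A ∩ T^[n] ⁻¹' B)) atTop (𝓝 (μ A * μ B)))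
    {A B : Set X} (hA : MeasurableSet A) (hB : MeasurableSet B) :
    Tendsto (fun n : ℕ => μ.real (A ∩ T^[n] ⁻¹' B)) atTop (𝓝 (μ.real A * μ.real B)) := by
  have h := (ENNReal.tendsto_toReal (ENNReal.mul_ne_top (measure_ne_top μ A)
    (measure_ne_top μ B))).comp (hmix A B hA hB)
  rw [ENNReal.toReal_mul] at h
  exact h

/-- the Koopman operator on `L²` -/
noncomputable def KU (hT : MeasurePreserving T μ μ) : Lp ℝ 2 μ →ₗᵢ[ℝ] Lp ℝ 2 μ :=
  Lp.compMeasurePreservingₗᵢ ℝ T hT

theorem KU_pow (hT : MeasurePreserving T μ μ) (n : ℕ) (g : Lp ℝ 2 μ) :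
    (KU hT ^ n) g = Lp.compMeasurePreserving T^[n] (hT.iterate n) g := by
  have h : (KU hT ^ n) g = (Lp.compMeasurePreserving (E := ℝ) (p := 2) T hT)^[n] g := by
    induction n generalizing g with
    | zero => rfl
    | succ n ih =>
      rw [pow_succ, Function.iterate_succ_apply]
      show (KU hT ^ n) (KU hT g) = _
      rw [ih]
      rfl
  rw [h, Lp.compMeasurePreserving_iterate]

theorem KU_pow_toLp (hT : MeasurePreserving T μ μ) (n : ℕ) {f : X → ℝ} (hf : MemLp f 2 μ) :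
    (KU hT ^ n) (hf.toLp f) = (hf.comp_measurePreserving (hT.iterate n)).toLp _ := by
  rw [KU_pow, Lp.toLp_compMeasurePreserving]

theorem inner_toLp {f g : X → ℝ} (hf : MemLp f 2 μ) (hg : MemLp g 2 μ) :
    ⟪hf.toLp f, hg.toLp g⟫_ℝ = ∫ x, f x * g x ∂μ := by
  rw [L2.inner_def]
  apply integral_congr_ae
  filter_upwards [hf.coeFn_toLp, hg.coeFn_toLp] with x h1 h2
  rw [h1, h2]
  show g x * f x = _
  ring

theorem inner_pow_toLp (hT : MeasurePreserving T μ μ) (n : ℕ) {f g : X → ℝ} (hf : MemLp f 2 μ)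
    (hg : MemLp g 2 μ) :
    ⟪hf.toLp f, (KU hT ^ n) (hg.toLp g)⟫_ℝ = ∫ x, f x * g (T^[n] x) ∂μ := by
  rw [KU_pow_toLp, inner_toLp]
  rfl

/-- closedness of the set of convergence -/
theorem closed_tendsto {E : Type*} [SeminormedAddCommGroup E] (φ : ℕ → E → ℝ) (L : E → ℝ) (C : ℝ)
    (h1 : ∀ n x y, |φ n x - φ n y| ≤ C * ‖x - y‖) (h2 : ∀ x y, |L x - L y| ≤ C * ‖x - y‖) :
    IsClosed {x | Tendsto (fun n => φ n x) atTop (𝓝 (L x))} := by
  rw [← isSeqClosed_iff_isClosed]
  intro u x hu hx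
  rw [mem_setOf_eq, Metric.tendsto_atTop]
  intro ε hε
  have h3 : Tendsto (fun k => C * ‖u k - x‖) atTop (𝓝 0) := by
    have := (tendsto_iff_norm_sub_tendsto_zero.1 hx).const_mul C
    simpa using this
  obtain ⟨k, hk⟩ := (h3.eventually_lt_const (show (0:ℝ) < ε / 3 by positivity)).exists
  have h4 : Tendsto (fun n => φ n (u k)) atTop (𝓝 (L (u k))) := hu k
  obtain ⟨N, hN⟩ := Metric.tendsto_atTop.1 h4 (ε / 3) (by positivity)
  refine ⟨N, fun n hn => ?_⟩
  have a1 := hN n hn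
  rw [Real.dist_eq] at a1 ⊢
  have a2 := h1 n x (u k)
  have a3 := h2 (u k) x
  rw [norm_sub_rev] at a2
  have e : φ n x - L x = (φ n x - φ n (u k)) + (φ n (u k) - L (u k)) + (L (u k) - L x) := by ring
  rw [e]
  refine lt_of_le_of_lt (abs_add_three _ _ _) ?_
  linarith

/-- **Mixing in `L²`** -/
theorem mixL2 (hT : MeasurePreserving T μ μ)
    (hmix : ∀ A B : Set X, MeasurableSet A → MeasurableSet B →
      Tendsto (fun n : ℕ => μ (A ∩ T^[n] ⁻¹' B)) atTop (𝓝 (μ A * μ B)))
    (f g : Lp ℝ 2 μ) :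
    Tendsto (fun n : ℕ => ⟪f, (KU hT ^ n) g⟫_ℝ) atTop (𝓝 ((∫ x, f x ∂μ) * ∫ x, g x ∂μ)) := by
  have hone : ∀ h : Lp ℝ 2 μ, ∫ x, h x ∂μ =
      ⟪indicatorConstLp 2 MeasurableSet.univ (measure_ne_top μ univ) (1:ℝ), h⟫_ℝ := by
    intro h
    rw [L2.inner_indicatorConstLp_one]
    simp
  simp only [hone]
  set o := indicatorConstLp 2 MeasurableSet.univ (measure_ne_top μ univ) (1:ℝ) with ho
  have hon : ‖o‖ ≤ 1 := by
    rw [ho, norm_indicatorConstLp (by norm_num) (by norm_num)]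
    simp
  have hb : ∀ (n : ℕ) (a b : Lp ℝ 2 μ), |⟪a, (KU hT ^ n) b⟫_ℝ| ≤ ‖a‖ * ‖b‖ := by
    intro n a b
    refine (abs_real_inner_le_norm _ _).trans ?_
    rw [norm_iso_pow]
  have ho1 : ∀ a : Lp ℝ 2 μ, |⟪o, a⟫_ℝ| ≤ ‖a‖ := by
    intro a
    refine (abs_real_inner_le_norm _ _).trans ?_
    have := mul_le_mul_of_nonneg_right hon (norm_nonneg a)
    linarith
  -- induction over `f`
  induction f using Lp.induction (p := 2) (by norm_num) with
  | @indicatorConst c A hA hμA =>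
    induction g using Lp.induction (p := 2) (by norm_num) with
    | @indicatorConst d B hB hμB =>
      rw [Lp.simpleFunc.coe_indicatorConst, Lp.simpleFunc.coe_indicatorConst]
      have e1 : ∀ n : ℕ, ⟪indicatorConstLp 2 hA hμA.ne c,
          (KU hT ^ n) (indicatorConstLp 2 hB hμB.ne d)⟫_ℝ =
          (c * d) * μ.real (A ∩ T^[n] ⁻¹' B) := by
        intro n
        rw [KU_pow, Lp.indicatorConstLp_compMeasurePreserving,
          L2.inner_indicatorConstLp_indicatorConstLp]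
        simp
        ring
      simp only [e1]
      have e2 : ⟪o, indicatorConstLp 2 hA hμA.ne c⟫_ℝ = c * μ.real A := by
        rw [ho, L2.inner_indicatorConstLp_indicatorConstLp]
        simp
        ring
      have e3 : ⟪o, indicatorConstLp 2 hB hμB.ne d⟫_ℝ = d * μ.real B := by
        rw [ho, L2.inner_indicatorConstLp_indicatorConstLp]
        simp
        ring
      rw [e2, e3]
      have := (mixR hmix hA hB).const_mul (c * d)
      convert this using 2
      ring
    | add hf hg hfg h1 h2 =>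
      simp only [map_add, inner_add_right, mul_add]
      exact h1.add h2
    | isClosed =>
      refine closed_tendsto (fun n b => ⟪_, (KU hT ^ n) b⟫_ℝ) (fun b => ⟪o, _⟫_ℝ * ⟪o, b⟫_ℝ)
        (‖(Lp.simpleFunc.indicatorConst 2 hA hμA.ne c : Lp ℝ 2 μ)‖) ?_ ?_
      · intro n x y
        rw [← inner_sub_right, ← map_sub]
        exact hb _ _ _
      · intro x y
        rw [← mul_sub, ← inner_sub_right, abs_mul]
        exact mul_le_mul (ho1 _) (ho1 _) (abs_nonneg _) (norm_nonneg _)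
  | add hf hg hfg h1 h2 =>
    simp only [inner_add_left, inner_add_right, add_mul]
    exact h1.add h2
  | isClosed =>
    refine closed_tendsto (fun n a => ⟪a, (KU hT ^ n) g⟫_ℝ) (fun a => ⟪o, a⟫_ℝ * ⟪o, g⟫_ℝ)
      ‖g‖ ?_ ?_
    · intro n x y
      rw [← inner_sub_left, mul_comm]
      exact hb _ _ _
    · intro x y
      rw [← sub_mul, ← inner_sub_right, abs_mul, mul_comm]
      exact mul_le_mul (ho1 _) (ho1 _) (abs_nonneg _) (norm_nonneg _)

end Pool.Agent.W742.OR
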