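import Pool.Agent.W742.OR.Mix

/-!
# Nearly invariant sets of small measure in mixing systems
-/

set_option autoImplicit false

open Filter Topology Finset MeasureTheory Set

namespace Pool.Agent.W742.OR

variable {X : Type*} [MeasurableSpace X] {μ : Measure X} [IsProbabilityMeasure μ] {T : X → X}

/-- small sets -/
theorem small_sets
    (hmix : ∀ A B : Set X, MeasurableSet A → MeasurableSet B →
      Tendsto (fun n : ℕ => μ (A ∩ T^[n] ⁻¹' B)) atTop (𝓝 (μ A * μ B)))
    (hT : MeasurePreserving T μ μ)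
    {A : Set X} (hA : MeasurableSet A) (h0 : 0 < μ.real A) (h1 : μ.real A < 1) (ε : ℝ)
    (hε : 0 < ε) : ∃ B, MeasurableSet B ∧ 0 < μ.real B ∧ μ.real B < ε := by
  set q := (1 + μ.real A) / 2 with hq
  have hq1 : q < 1 := by rw [hq]; linarith
  have hq0 : 0 < q := by rw [hq]; linarith
  have hqA : μ.real A < q := by rw [hq]; linarith
  have step : ∀ k : ℕ, ∃ B, MeasurableSet B ∧ 0 < μ.real B ∧ μ.real B ≤ q ^ k * μ.real A := by
    intro k
    induction k with
    | zero => exact ⟨A, hA, h0, by simp⟩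
    | succ k ih =>
      obtain ⟨B, hB, hB0, hBk⟩ := ih
      have hBA : μ.real B ≤ μ.real A := by
        refine hBk.trans ?_
        have : q ^ k ≤ 1 := pow_le_one₀ hq0.le hq1.le
        nlinarith
      have h := mixR hmix hB hB
      have hlt : μ.real B * μ.real B < q * μ.real B := by
        apply mul_lt_mul_of_pos_right _ hB0
        linarith
      have hpos : 0 < μ.real B * μ.real B := by positivity
      obtain ⟨n, hn1, hn2⟩ := ((h.eventually_lt_const hlt).and
        (h.eventually_const_lt hpos)).exists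
      refine ⟨B ∩ T^[n] ⁻¹' B, hB.inter ((hT.iterate n).measurable hB), hn2, hn1.le.trans ?_⟩
      rw [pow_succ]
      nlinarith
  have hlim : Tendsto (fun k : ℕ => q ^ k * μ.real A) atTop (𝓝 0) := by
    have := (tendsto_pow_atTop_nhds_zero_of_lt_one hq0.le hq1).mul_const (μ.real A)
    simpa using this
  obtain ⟨k, hk⟩ := (hlim.eventually_lt_const hε).exists
  obtain ⟨B, hB, hB0, hBk⟩ := step k
  exact ⟨B, hB, hB0, hBk.trans_lt hk⟩

/-- unions of preimages -/
def UA (T : X → X) (B : Set X) (M : ℕ) : Set X := ⋃ j ∈ range M, T^[j] ⁻¹' B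

theorem UA_meas (hT : MeasurePreserving T μ μ) {B : Set X} (hB : MeasurableSet B) (M : ℕ) :
    MeasurableSet (UA T B M) :=
  Finset.measurableSet_biUnion _ fun j _ => (hT.iterate j).measurable hB

omit [IsProbabilityMeasure μ] in
theorem UA_succ (T : X → X) (B : Set X) (M : ℕ) :
    UA T B (M + 1) = UA T B M ∪ T^[M] ⁻¹' B := by
  unfold UA
  rw [Finset.range_add_one, Finset.set_biUnion_insert, union_comm]

theorem UA_zero (T : X → X) (B : Set X) : UA T B 0 = ∅ := by simp [UA]

theorem UA_mono (T : X → X) (B : Set X) : Monotone (UA T B) := by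
  apply monotone_nat_of_le_succ
  intro n
  rw [UA_succ]
  exact subset_union_left

/-- the union of all preimages has full measure -/
theorem UA_lim (hT : MeasurePreserving T μ μ)
    (hmix : ∀ A B : Set X, MeasurableSet A → MeasurableSet B →
      Tendsto (fun n : ℕ => μ (A ∩ T^[n] ⁻¹' B)) atTop (𝓝 (μ A * μ B)))
    {B : Set X} (hB : MeasurableSet B) (h0 : 0 < μ.real B) :
    Tendsto (fun M => μ.real (UA T B M)) atTop (𝓝 1) := by
  have h1 : Tendsto (fun M => μ (UA T B M)) atTop (𝓝 (μ (⋃ M, UA T B M))) :=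
    tendsto_measure_iUnion_atTop (UA_mono T B)
  set Y := ⋃ M, UA T B M with hY
  have hYm : MeasurableSet Y := MeasurableSet.iUnion fun M => UA_meas hT hB M
  have h2 : Tendsto (fun M => μ.real (UA T B M)) atTop (𝓝 (μ.real Y)) :=
    (ENNReal.tendsto_toReal (measure_ne_top μ Y)).comp h1
  have hBY : B ⊆ Y := by
    intro x hx
    rw [hY, mem_iUnion]
    refine ⟨1, ?_⟩
    rw [UA_succ]
    right
    simpa using hx
  have hYpos : 0 < μ.real Y := lt_of_lt_of_le h0 (measureReal_mono hBY)
  have hinv : ∀ n : ℕ, T^[n] ⁻¹' Y ⊆ Y := by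
    intro n x hx
    rw [hY, Set.mem_preimage, mem_iUnion] at hx
    obtain ⟨M, hM⟩ := hx
    unfold UA at hM
    simp only [mem_iUnion, Finset.mem_range, Set.mem_preimage, exists_prop] at hM
    obtain ⟨j, hj, hx⟩ := hM
    rw [hY, mem_iUnion]
    refine ⟨j + n + 1, ?_⟩
    unfold UA
    simp only [mem_iUnion, Finset.mem_range, Set.mem_preimage, exists_prop]
    refine ⟨j + n, by omega, ?_⟩
    rwa [Function.iterate_add_apply]
  have h3 := mixR hmix hYm hYm
  have h4 : ∀ n : ℕ, μ.real (Y ∩ T^[n] ⁻¹' Y) = μ.real Y := by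
    intro n
    rw [inter_eq_self_of_subset_right (hinv n)]
    exact (hT.iterate n).measureReal_preimage hYm.nullMeasurableSet
  simp only [h4] at h3
  have h5 : μ.real Y = μ.real Y * μ.real Y := tendsto_nhds_unique tendsto_const_nhds h3
  have h6 : μ.real Y = 1 := by
    have : μ.real Y * (μ.real Y - 1) = 0 := by linarith
    rcases mul_eq_zero.1 this with h | h
    · exact absurd h hYpos.ne'
    · linarith
  rwa [h6] at h2

/-- **Nearly invariant sets** of measure in `[ε, 2ε]`. -/
theorem near_inv (hT : MeasurePreserving T μ μ)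
    (hmix : ∀ A B : Set X, MeasurableSet A → MeasurableSet B →
      Tendsto (fun n : ℕ => μ (A ∩ T^[n] ⁻¹' B)) atTop (𝓝 (μ A * μ B)))
    {A₀ : Set X} (hA₀ : MeasurableSet A₀) (h0 : 0 < μ.real A₀) (h1 : μ.real A₀ < 1) (ε δ : ℝ)
    (hε : 0 < ε) (hε1 : ε < 1) (hδ : 0 < δ) (N : ℕ) :
    ∃ A, MeasurableSet A ∧ ε ≤ μ.real A ∧ μ.real A ≤ 2 * ε ∧
      ∀ n ≤ N, μ.real A - δ ≤ μ.real (A ∩ T^[n] ⁻¹' A) := by
  obtain ⟨B, hB, hB0, hBε⟩ := small_sets hmix hT hA₀ h0 h1 (min ε (δ / (N + 1)))
    (lt_min hε (by positivity))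
  have hBε1 : μ.real B < ε := hBε.trans_le (min_le_left _ _)
  have hBδ : μ.real B * N ≤ δ := by
    have h : μ.real B ≤ δ / (N + 1) := (hBε.trans_le (min_le_right _ _)).le
    rw [le_div_iff₀ (by positivity)] at h
    nlinarith
  have hlim := UA_lim hT hmix hB hB0
  have hex : ∃ M, ε ≤ μ.real (UA T B M) := (hlim.eventually_const_le hε1).exists
  classical
  set M := Nat.find hex with hM
  have hM1 : ε ≤ μ.real (UA T B M) := Nat.find_spec hex
  have hM0 : M ≠ 0 := by
    intro h
    rw [h, UA_zero] at hM1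
    simp at hM1
    linarith
  obtain ⟨K, hK⟩ := Nat.exists_eq_succ_of_ne_zero hM0
  have hK1 : μ.real (UA T B K) < ε := by
    have := Nat.find_min hex (m := K) (by omega)
    linarith [not_le.1 this]
  have hpre : ∀ j : ℕ, μ.real (T^[j] ⁻¹' B) = μ.real B := fun j =>
    (hT.iterate j).measureReal_preimage hB.nullMeasurableSet
  refine ⟨UA T B M, UA_meas hT hB M, hM1, ?_, ?_⟩
  · rw [hK, Nat.succ_eq_add_one, UA_succ]
    refine (measureReal_union_le _ _).trans ?_
    rw [hpre]
    linarith
  · intro n hn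
    have hsub : UA T B M \ (UA T B M ∩ T^[n] ⁻¹' UA T B M) ⊆ UA T B n := by
      rintro x ⟨hx, hx'⟩
      unfold UA at hx ⊢
      simp only [mem_iUnion, Finset.mem_range, Set.mem_preimage, exists_prop] at hx ⊢
      obtain ⟨j, hj, hxj⟩ := hx
      by_cases hjn : j < n
      · exact ⟨j, hjn, hxj⟩
      · exfalso
        apply hx'
        refine ⟨?_, ?_⟩
        · unfold UA
          simp only [mem_iUnion, Finset.mem_range, Set.mem_preimage, exists_prop]
          exact ⟨j, hj, hxj⟩
        · unfold UA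
          simp only [mem_iUnion, Finset.mem_range, Set.mem_preimage, exists_prop]
          refine ⟨j - n, by omega, ?_⟩
          rw [← Function.iterate_add_apply]
          rwa [Nat.sub_add_cancel (by omega)]
    have hUn : μ.real (UA T B n) ≤ μ.real B * n := by
      have : ∀ k : ℕ, μ.real (UA T B k) ≤ μ.real B * k := by
        intro k
        induction k with
        | zero => simp [UA_zero]
        | succ k ih =>
          rw [UA_succ]
          refine (measureReal_union_le _ _).trans ?_
          rw [hpre]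
          push_cast
          linarith
      exact this n
    have h2 : μ.real (UA T B M) ≤ μ.real (UA T B M ∩ T^[n] ⁻¹' UA T B M) +
        μ.real (UA T B M \ (UA T B M ∩ T^[n] ⁻¹' UA T B M)) := by
      refine (measureReal_mono ?_).trans (measureReal_union_le _ _)
      intro x hx
      by_cases h : x ∈ UA T B M ∩ T^[n] ⁻¹' UA T B M
      · exact Or.inl h
      · exact Or.inr ⟨hx, h⟩
    have h3 : μ.real (UA T B M \ (UA T B M ∩ T^[n] ⁻¹' UA T B M)) ≤ δ := by
      refine (measureReal_mono hsub).trans (hUn.trans ?_)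
      refine le_trans ?_ hBδ
      exact mul_le_mul_of_nonneg_left (by exact_mod_cast hn) hB0.le
    linarith

end Pool.Agent.W742.OR
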